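import Mathlib

/-!
# Weighted translations: the affine isometry of the space of measurable functions

`af R h a = h + a ∘ R` is an isometry for convergence in measure, when `R` preserves the measure.
-/

namespace Pool.Agent.X143.WT

open MeasureTheory Function
open scoped ENNReal

variable {X : Type*}

/-- the affine map `a ↦ h + a ∘ R` -/
def af (R : X → X) (h : X → ℝ) (a : X → ℝ) : X → ℝ := fun x => h x + a (R x)

lemma af_iter_add (R : X → X) (h a b : X → ℝ) (n : ℕ) :
    (af R h)^[n] (fun x => a x + b x) = fun x => (af R h)^[n] a x + b (R^[n] x) := by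
  induction n generalizing a b with
  | zero => rfl
  | succ n ih =>
    rw [iterate_succ_apply]
    have : af R h (fun x => a x + b x) = fun x => af R h a x + b (R x) := by
      funext x; simp only [af]; ring
    rw [this, ih (af R h a) (fun x => b (R x))]
    funext x
    rw [iterate_succ_apply, ← iterate_succ_apply' R n x]

lemma af_iter_eq (R : X → X) (h a : X → ℝ) (n : ℕ) (x : X) :
    (af R h)^[n] a x = birkhoffSum R h n x + a (R^[n] x) := by
  induction n generalizing a with
  | zero => simp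
  | succ n ih =>
    rw [iterate_succ_apply, ih, birkhoffSum_succ, iterate_succ_apply']
    simp only [af]; ring

variable [MeasurableSpace X] {μ : Measure X}

/-- `a` and `b` differ by less than `δ` outside a set of measure at most `ε` -/
def Cl (μ : Measure X) (δ : ℝ) (ε : ℝ≥0∞) (a b : X → ℝ) : Prop :=
  μ {x | δ ≤ |a x - b x|} ≤ ε

lemma Cl.symm {δ : ℝ} {ε : ℝ≥0∞} {a b : X → ℝ} (h : Cl μ δ ε a b) : Cl μ δ ε b a := by
  unfold Cl at *
  simpa only [abs_sub_comm] using h

lemma Cl.trans {δ δ' : ℝ} {ε ε' : ℝ≥0∞} {a b c : X → ℝ} (h : Cl μ δ ε a b)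
    (h' : Cl μ δ' ε' b c) : Cl μ (δ + δ') (ε + ε') a c := by
  unfold Cl at *
  refine le_trans (measure_mono ?_) (le_trans (measure_union_le _ _) (add_le_add h h'))
  intro x hx
  simp only [Set.mem_ofPred_eq, Set.mem_union] at *
  by_contra hcon
  push Not at hcon
  have : |a x - c x| ≤ |a x - b x| + |b x - c x| := abs_sub_le _ _ _
  linarith [hcon.1, hcon.2]

lemma Cl.af {R : X → X} (hR : MeasurePreserving R μ μ) (h : X → ℝ) {δ : ℝ} {ε : ℝ≥0∞}
    {a b : X → ℝ} (hab : Cl μ δ ε a b) : Cl μ δ ε (af R h a) (af R h b) := by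
  unfold Cl at *
  have e : {x | δ ≤ |WT.af R h a x - WT.af R h b x|} = R ⁻¹' {x | δ ≤ |a x - b x|} := by
    ext x
    simp [WT.af]
  rw [e]
  refine le_trans (Measure.le_map_apply hR.measurable.aemeasurable _) ?_
  rw [hR.map_eq]
  exact hab

lemma Cl.af_iter {R : X → X} (hR : MeasurePreserving R μ μ) (h : X → ℝ) {δ : ℝ} {ε : ℝ≥0∞}
    {a b : X → ℝ} (hab : Cl μ δ ε a b) (n : ℕ) :
    Cl μ δ ε ((WT.af R h)^[n] a) ((WT.af R h)^[n] b) := by
  induction n with
  | zero => exact hab
  | succ n ih =>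
    rw [iterate_succ_apply', iterate_succ_apply']
    exact ih.af hR h

/-- The commutation argument: if the orbit of `F` comes near to `F + u + c` at time `n` and near to
all `F + k u + c'`, then `u ∘ R^n = u` on a large set. -/
theorem core1 {R : X → X} (hR : MeasurePreserving R μ μ) (h F u : X → ℝ) (hu0 : ∀ x, 0 ≤ u x)
    (hu1 : ∀ x, u x ≤ 1) {n : ℕ} {c : ℝ} {ε : ℝ≥0∞}
    (h1 : Cl μ (1 / 4) ε ((WT.af R h)^[n] F) (fun x => F x + (u x + c)))
    (h2 : ∀ k : ℕ, ∃ (m : ℕ) (c' : ℝ), Cl μ (1 / 4) ε ((WT.af R h)^[m] F)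
      (fun x => F x + (k * u x + c'))) :
    μ {x | u (R^[n] x) ≠ u x} ≤ 4 * ε := by
  have key : ∀ k : ℕ, μ {x | 2 ≤ k * |u (R^[n] x) - u x|} ≤ 4 * ε := by
    intro k
    obtain ⟨m, c', h3⟩ := h2 k
    -- A^m A^n F
    have e1 : Cl μ (1 / 4) ε ((WT.af R h)^[m] ((WT.af R h)^[n] F))
        (fun x => (WT.af R h)^[m] F x + (u (R^[m] x) + c)) := by
      have := h1.af_iter hR h m
      rwa [af_iter_add R h F (fun x => u x + c) m] at this
    have e2 : Cl μ (1 / 4) ε (fun x => (WT.af R h)^[m] F x + (u (R^[m] x) + c))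
        (fun x => (F x + (k * u x + c')) + (u (R^[m] x) + c)) := by
      unfold Cl at *
      simpa only [add_sub_add_right_eq_sub] using h3
    have e3 : Cl μ (1 / 4) ε ((WT.af R h)^[n] ((WT.af R h)^[m] F))
        (fun x => (WT.af R h)^[n] F x + (k * u (R^[n] x) + c')) := by
      have := h3.af_iter hR h n
      rwa [af_iter_add R h F (fun x => k * u x + c') n] at this
    have e4 : Cl μ (1 / 4) ε (fun x => (WT.af R h)^[n] F x + (k * u (R^[n] x) + c'))
        (fun x => (F x + (u x + c)) + (k * u (R^[n] x) + c')) := by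
      unfold Cl at *
      simpa only [add_sub_add_right_eq_sub] using h1
    have ecomm : (WT.af R h)^[n] ((WT.af R h)^[m] F) = (WT.af R h)^[m] ((WT.af R h)^[n] F) := by
      rw [← iterate_add_apply, ← iterate_add_apply, add_comm]
    rw [ecomm] at e3
    have e5 := ((e1.trans e2).symm).trans (e3.trans e4)
    unfold Cl at e5
    refine le_trans (measure_mono ?_) (le_trans e5 ?_)
    · intro x hx
      simp only [Set.mem_ofPred_eq] at *
      have ha : |u (R^[m] x) - u x| ≤ 1 := by
        rw [abs_le]; constructor <;> linarith [hu0 x, hu1 x, hu0 (R^[m] x), hu1 (R^[m] x)]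
      have hb : |k * (u (R^[n] x) - u x)| = k * |u (R^[n] x) - u x| := by
        rw [abs_mul, abs_of_nonneg (Nat.cast_nonneg k)]
      have hc : F x + (k * u x + c') + (u (R^[m] x) + c) -
          (F x + (u x + c) + (k * u (R^[n] x) + c')) =
          (u (R^[m] x) - u x) - k * (u (R^[n] x) - u x) := by ring
      rw [hc]
      have hd := abs_sub_abs_le_abs_sub (k * (u (R^[n] x) - u x)) (u (R^[m] x) - u x)
      rw [hb] at hd
      rw [abs_sub_comm (u (R^[m] x) - u x)]
      linarith
    · apply le_of_eq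
      ring
  have hmono : Monotone (fun k : ℕ => {x | 2 ≤ (k : ℝ) * |u (R^[n] x) - u x|}) := by
    intro k l hkl x hx
    simp only [Set.mem_ofPred_eq] at *
    have : (k : ℝ) * |u (R^[n] x) - u x| ≤ (l : ℝ) * |u (R^[n] x) - u x| := by
      gcongr
    linarith
  have hun : {x | u (R^[n] x) ≠ u x} = ⋃ k : ℕ, {x | 2 ≤ (k : ℝ) * |u (R^[n] x) - u x|} := by
    ext x
    simp only [Set.mem_ofPred_eq, Set.mem_iUnion]
    constructor
    · intro hx
      have hpos : 0 < |u (R^[n] x) - u x| := abs_pos.mpr (sub_ne_zero.mpr hx)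
      obtain ⟨k, hk⟩ := exists_nat_ge (2 / |u (R^[n] x) - u x|)
      refine ⟨k, ?_⟩
      rwa [div_le_iff₀ hpos] at hk
    · rintro ⟨k, hk⟩ he
      rw [he] at hk
      simp at hk
      linarith
  rw [hun, hmono.measure_iUnion]
  exact iSup_le key

end Pool.Agent.X143.WT
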