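import Pool.Agent.X143.WT.Rot

/-!
# Weighted translations on `L^p[0,1]`
-/

namespace Pool.Agent.X143.WT

open MeasureTheory Function Set Filter Topology
open scoped ENNReal

variable {p : ℝ≥0∞} [hp : Fact (1 ≤ p)]

/-- `T` is the weighted translation with weight `φ` and angle `α` -/
def IsWT (φ : ℝ → ℂ) (α : ℝ) (T : Lp ℂ p mI →L[ℂ] Lp ℂ p mI) : Prop :=
  ∀ f : Lp ℂ p mI, T f =ᵐ[mI] fun x => φ x * f (rot α x)

/-- existence -/
theorem exists_WT (p : ℝ≥0∞) [hp : Fact (1 ≤ p)] (φ : ℝ → ℂ) (hφ : MemLp φ ∞ mI) (α : ℝ) :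
    ∃ T : Lp ℂ p mI →L[ℂ] Lp ℂ p mI, IsWT φ α T := by
  let C : Lp ℂ p mI →L[ℂ] Lp ℂ p mI :=
    (Lp.compMeasurePreservingₗᵢ ℂ (rot α) (rot_mp α)).toContinuousLinearMap
  let M : Lp ℂ p mI →L[ℂ] Lp ℂ p mI :=
    (ContinuousLinearMap.mul ℂ ℂ).holderL mI ∞ p p (hφ.toLp φ)
  refine ⟨M.comp C, fun f => ?_⟩
  have h1 : M (C f) =ᵐ[mI] fun x => (hφ.toLp φ) x * (C f) x := by
    exact (ContinuousLinearMap.mul ℂ ℂ).coeFn_holder (r := p) (hφ.toLp φ) (C f)
  have h2 : C f =ᵐ[mI] f ∘ rot α := Lp.coeFn_compMeasurePreserving f (rot_mp α)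
  have h3 := hφ.coeFn_toLp
  filter_upwards [h1, h2, h3] with x h1 h2 h3
  rw [ContinuousLinearMap.comp_apply, h1, h2, h3, comp_apply]

theorem WT_unique {φ : ℝ → ℂ} {α : ℝ} {T T' : Lp ℂ p mI →L[ℂ] Lp ℂ p mI} (h : IsWT φ α T)
    (h' : IsWT φ α T') : T = T' := by
  ext1 f
  exact Lp.ext ((h f).trans (h' f).symm)

variable {φ : ℝ → ℂ} {α : ℝ} {T : Lp ℂ p mI →L[ℂ] Lp ℂ p mI}

lemma ae_comp_iter {P : ℝ → Prop} (h : ∀ᵐ x ∂mI, P x) (n : ℕ) :
    ∀ᵐ x ∂mI, P ((rot α)^[n] x) :=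
  ((rot_mp α).iterate n).quasiMeasurePreserving.ae h

lemma pow_succ_ae (hT : IsWT φ α T) (f : Lp ℂ p mI) (n : ℕ) :
    (T ^ (n + 1)) f =ᵐ[mI] fun x => φ x * (T ^ n) f (rot α x) := by
  rw [pow_succ']
  exact hT _

/-- zeros of the iterates -/
lemma zero_ae (hT : IsWT φ α T) (f : Lp ℂ p mI) (n : ℕ) :
    ∀ᵐ x ∂mI, f ((rot α)^[n] x) = 0 → (T ^ n) f x = 0 := by
  induction n with
  | zero => exact ae_of_all _ (fun x hx => by simpa using hx)
  | succ n ih =>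
    filter_upwards [pow_succ_ae hT f n, ae_comp_iter (α := α) ih 1] with x h1 h2 h3
    rw [h1, show rot α x = (rot α)^[1] x from rfl, h2, mul_zero]
    rw [← iterate_add_apply]
    exact h3

lemma weight_zero_ae (hT : IsWT φ α T) (f : Lp ℂ p mI) (n : ℕ) :
    ∀ᵐ x ∂mI, φ x = 0 → (T ^ (n + 1)) f x = 0 := by
  filter_upwards [pow_succ_ae hT f n] with x h1 h2
  rw [h1, h2, zero_mul]

lemma log_ae (hT : IsWT φ α T) (f : Lp ℂ p mI) (hφ0 : ∀ᵐ x ∂mI, φ x ≠ 0)
    (hf0 : ∀ᵐ x ∂mI, f x ≠ 0) (n : ℕ) :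
    ∀ᵐ x ∂mI, (T ^ n) f x ≠ 0 ∧ Real.log ‖(T ^ n) f x‖ =
      (af (rot α) (fun x => Real.log ‖φ x‖))^[n] (fun x => Real.log ‖f x‖) x := by
  induction n with
  | zero =>
    filter_upwards [hf0] with x hx
    exact ⟨by simpa using hx, by simp⟩
  | succ n ih =>
    filter_upwards [pow_succ_ae hT f n, ae_comp_iter (α := α) ih 1, hφ0] with x h1 h2 h3
    rw [iterate_one] at h2
    refine ⟨?_, ?_⟩
    · rw [h1]; exact mul_ne_zero h3 h2.1
    · rw [h1, norm_mul, Real.log_mul (norm_ne_zero_iff.mpr h3) (norm_ne_zero_iff.mpr h2.1), h2.2,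
        iterate_succ_apply']
      rfl

/-- approximation of functions: from density in `L^p` to approximation in measure -/
lemma approx {f : Lp ℂ p mI} (hT : IsWT φ α T) (hφ0 : ∀ᵐ x ∂mI, φ x ≠ 0)
    (hf0 : ∀ᵐ x ∂mI, f x ≠ 0)
    (hd : Dense {g : Lp ℂ p mI | ∃ (c : ℂ) (n : ℕ), g = c • (T ^ n) f}) {w : ℝ → ℝ}
    (hw : Measurable w) {C : ℝ} (hC : ∀ x, |w x| ≤ C) {δ : ℝ} {ε : ℝ≥0∞} (hδ : 0 < δ)
    (hε : 0 < ε) :
    ∃ (n : ℕ) (c : ℝ), Cl mI δ ε
      ((af (rot α) (fun x => Real.log ‖φ x‖))^[n] (fun x => Real.log ‖f x‖))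
      (fun x => Real.log ‖f x‖ + (w x + c)) := by
  -- the target
  have hmem : MemLp (fun x => (Real.exp (w x) : ℂ) * f x) p mI := by
    refine MemLp.of_le_mul (c := Real.exp C) (Lp.memLp f) ?_ (ae_of_all _ fun x => ?_)
    · exact ((Complex.measurable_ofReal.comp (Real.measurable_exp.comp hw)).aestronglyMeasurable).mul
        (Lp.aestronglyMeasurable f)
    · rw [norm_mul, Complex.norm_real, Real.norm_eq_abs, abs_of_pos (Real.exp_pos _)]
      gcongr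
      exact (le_abs_self _).trans (hC x)
  obtain ⟨g, hg, hlim⟩ := mem_closure_iff_seq_limit.mp (hd (hmem.toLp _))
  choose c n hcn using hg
  obtain ⟨ns, hns, hae⟩ := (tendstoInMeasure_of_tendsto_Lp hlim).exists_seq_tendsto_ae
  have htarget : ∀ᵐ x ∂mI, hmem.toLp _ x = (Real.exp (w x) : ℂ) * f x := hmem.coeFn_toLp
  -- logs converge
  have hlog : ∀ᵐ x ∂mI, Tendsto (fun k => Real.log ‖g (ns k) x‖) atTop
      (𝓝 (w x + Real.log ‖f x‖)) := by
    filter_upwards [hae, htarget, hf0] with x h1 h2 h3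
    rw [h2] at h1
    have h4 : ‖(Real.exp (w x) : ℂ) * f x‖ ≠ 0 := by
      rw [norm_ne_zero_iff]
      exact mul_ne_zero (Complex.ofReal_ne_zero.mpr (Real.exp_pos _).ne') h3
    have h5 := (Real.continuousAt_log h4).tendsto.comp h1.norm
    have h6 : Real.log ‖(Real.exp (w x) : ℂ) * f x‖ = w x + Real.log ‖f x‖ := by
      rw [norm_mul, Real.log_mul (by simp [Real.exp_ne_zero]) (norm_ne_zero_iff.mpr h3),
        Complex.norm_real, Real.norm_eq_abs, abs_of_pos (Real.exp_pos _), Real.log_exp]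
    rw [h6] at h5
    exact h5
  have hmeas := tendstoInMeasure_of_tendsto_ae (fun k =>
    ((Lp.aestronglyMeasurable (g (ns k))).norm.aemeasurable.log).aestronglyMeasurable) hlog
  rw [tendstoInMeasure_iff_norm] at hmeas
  have h1 := (ENNReal.tendsto_atTop_zero.mp (hmeas δ hδ)) ε hε
  obtain ⟨N, hN⟩ := h1
  -- c ≠ 0 eventually
  have hne : ∀ᶠ k in atTop, c (ns k) ≠ 0 := by
    have hne0 : hmem.toLp (fun x => (Real.exp (w x) : ℂ) * f x) ≠ 0 := by
      intro h0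
      have h2 : ∀ᵐ x ∂mI, False := by
        have h00 : (hmem.toLp (fun x => (Real.exp (w x) : ℂ) * f x) : ℝ → ℂ) =ᵐ[mI] 0 := by
          rw [h0]; exact Lp.coeFn_zero _ _ _
        filter_upwards [htarget, hf0, h00] with x h3 h4 h5
        rw [h5] at h3
        simp only [Pi.zero_apply] at h3
        rcases mul_eq_zero.mp h3.symm with h6 | h6
        · exact (Real.exp_pos (w x)).ne' (by exact_mod_cast h6)
        · exact h4 h6
      exact (IsProbabilityMeasure.ne_zero mI) (by simpa using h2)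
    have := (hlim.comp hns.tendsto_atTop).eventually_ne hne0
    filter_upwards [this] with k hk hck
    apply hk
    simp only [comp_apply]
    rw [hcn, hck, zero_smul]
  obtain ⟨N', hN'⟩ := eventually_atTop.mp hne
  obtain ⟨k, hk1, hk2⟩ : ∃ k, N ≤ k ∧ N' ≤ k := ⟨max N N', le_max_left _ _, le_max_right _ _⟩
  have hck := hN' k hk2
  refine ⟨n (ns k), -Real.log ‖c (ns k)‖, ?_⟩
  unfold Cl
  refine le_trans (le_of_eq ?_) (hN k hk1)
  apply measure_congr
  have hsm := Lp.coeFn_smul (c (ns k)) ((T ^ (n (ns k))) f)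
  filter_upwards [log_ae hT f hφ0 hf0 (n (ns k)), hsm] with x h2 h3
  apply propext
  show δ ≤ |_| ↔ δ ≤ ‖_‖
  rw [← h2.2, Real.norm_eq_abs]
  have h4 : (g (ns k) : ℝ → ℂ) x = c (ns k) * (T ^ n (ns k)) f x := by
    rw [hcn (ns k), h3]; rfl
  rw [h4, norm_mul, Real.log_mul (norm_ne_zero_iff.mpr hck) (norm_ne_zero_iff.mpr h2.1)]
  have h5 : Real.log ‖(T ^ n (ns k)) f x‖ -
      (Real.log ‖f x‖ + (w x + -Real.log ‖c (ns k)‖)) =
      Real.log ‖c (ns k)‖ + Real.log ‖(T ^ n (ns k)) f x‖ - (w x + Real.log ‖f x‖) := by ring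
  rw [h5]

lemma zero_of_lim {g : ℕ → Lp ℂ p mI} {gs : Lp ℂ p mI} (hlim : Tendsto g atTop (𝓝 gs))
    (hgs : ∀ᵐ x ∂mI, 1 ≤ ‖gs x‖) (Z : ℕ → Set ℝ)
    (hZ : ∀ᶠ k in atTop, ∀ᵐ x ∂mI, x ∈ Z k → g k x = 0) {m : ℝ≥0∞}
    (hm : ∀ k, m ≤ mI (Z k)) : m = 0 := by
  have h1 := tendstoInMeasure_of_tendsto_Lp hlim
  rw [tendstoInMeasure_iff_norm] at h1
  have h2 := h1 1 one_pos
  refine le_antisymm (ge_of_tendsto h2 ?_) zero_le
  filter_upwards [hZ] with k hk
  refine (hm k).trans (measure_mono_ae ?_)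
  filter_upwards [hk, hgs] with x h3 h4 h5
  show 1 ≤ ‖g k x - gs x‖
  rw [h3 h5, zero_sub, norm_neg]
  exact h4

lemma f_ne_zero {f : Lp ℂ p mI} (hT : IsWT φ α T)
    (hd : Dense {g : Lp ℂ p mI | ∃ (c : ℂ) (n : ℕ), g = c • (T ^ n) f}) :
    ∀ᵐ x ∂mI, f x ≠ 0 := by
  have hmem : MemLp (fun _ : ℝ => (1 : ℂ)) p mI := memLp_const 1
  obtain ⟨g, hg, hlim⟩ := mem_closure_iff_seq_limit.mp (hd (hmem.toLp _))
  choose c n hcn using hg
  have hmeas : MeasurableSet {x | f x = 0} :=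
    (Lp.stronglyMeasurable f).measurable (measurableSet_singleton 0)
  have h := zero_of_lim hlim (by
      filter_upwards [hmem.coeFn_toLp] with x hx
      rw [hx]; simp) (fun k => {x | f ((rot α)^[n k] x) = 0}) (m := mI {x | f x = 0})
    (Eventually.of_forall fun k => by
      filter_upwards [zero_ae hT f (n k), Lp.coeFn_smul (c k) ((T ^ (n k)) f)] with x h1 h2 h3
      rw [hcn k, h2, Pi.smul_apply, h1 h3, smul_zero])
    (fun k => by
      have := ((rot_mp α).iterate (n k)).measure_preimage hmeas.nullMeasurableSet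
      exact this.symm.le)
  rw [ae_iff]
  simpa using h

lemma phi_ne_zero {f : Lp ℂ p mI} (hT : IsWT φ α T)
    (hd : Dense {g : Lp ℂ p mI | ∃ (c : ℂ) (n : ℕ), g = c • (T ^ n) f}) :
    ∀ᵐ x ∂mI, φ x ≠ 0 := by
  have hmem1 : MemLp (fun _ : ℝ => (1 : ℂ)) p mI := memLp_const 1
  have hmem2 : MemLp (fun x : ℝ => ((1 + Int.fract x : ℝ) : ℂ)) p mI := by
    refine MemLp.of_bound (C := 2) ?_ (ae_of_all _ fun x => ?_)
    · exact (Complex.measurable_ofReal.comp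
        (measurable_const.add measurable_fract)).aestronglyMeasurable
    · rw [Complex.norm_real, Real.norm_eq_abs, abs_of_pos (by linarith [Int.fract_nonneg x])]
      linarith [Int.fract_lt_one x]
  -- one of the two functions is not a multiple of `f`
  have hex : ∃ gs : Lp ℂ p mI, (∀ᵐ x ∂mI, 1 ≤ ‖gs x‖) ∧ gs ∉ (Submodule.span ℂ {f}) := by
    by_contra hcon
    push Not at hcon
    have a1 := hcon (hmem1.toLp _) (by
      filter_upwards [hmem1.coeFn_toLp] with x hx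
      rw [hx]; simp)
    have a2 := hcon (hmem2.toLp _) (by
      filter_upwards [hmem2.coeFn_toLp] with x hx
      rw [hx, Complex.norm_real, Real.norm_eq_abs, abs_of_pos (by linarith [Int.fract_nonneg x])]
      linarith [Int.fract_nonneg x])
    rw [Submodule.mem_span_singleton] at a1 a2
    obtain ⟨a, ha⟩ := a1
    obtain ⟨b, hb⟩ := a2
    have e1 : ∀ᵐ x ∂mI, a * f x = 1 := by
      filter_upwards [hmem1.coeFn_toLp, Lp.coeFn_smul a f] with x h1 h2
      rw [← ha, h2] at h1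
      simpa using h1
    have e2 : ∀ᵐ x ∂mI, b * f x = ((1 + Int.fract x : ℝ) : ℂ) := by
      filter_upwards [hmem2.coeFn_toLp, Lp.coeFn_smul b f] with x h1 h2
      rw [← hb, h2] at h1
      simpa using h1
    -- so 1 + x is constant
    have e3 : ∀ᵐ x ∂mI, x ∈ Ioo (0 : ℝ) 1 ∧ (b / a : ℂ) = ((1 + x : ℝ) : ℂ) := by
      filter_upwards [e1, e2, mI_ae_Ioo] with x h1 h2 h3
      refine ⟨h3, ?_⟩
      have ha0 : a ≠ 0 := by rintro rfl; simp at h1
      rw [Int.fract_eq_self.mpr ⟨h3.1.le, h3.2⟩] at h2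
      rw [← h2, div_eq_iff ha0]
      linear_combination -b * h1
    have hnull : mI {x | ¬ (x ∈ Ioo (0 : ℝ) 1 ∧ (b / a : ℂ) = ((1 + x : ℝ) : ℂ))} ≤ 1 / 8 := by
      rw [ae_iff] at e3
      rw [e3]; exact zero_le
    obtain ⟨x, hx, hxB⟩ := exists_good hnull (a := 0) (b := 1 / 4) le_rfl (by norm_num)
      (by norm_num)
    obtain ⟨y, hy, hyB⟩ := exists_good hnull (a := 3 / 4) (b := 1) (by norm_num) (by norm_num)
      le_rfl
    simp only [mem_ofPred_eq, not_not] at hxB hyB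
    have hxy := hxB.2.symm.trans hyB.2
    have hxy' : (1 + x : ℝ) = 1 + y := by exact_mod_cast hxy
    linarith [hx.2, hy.1]
  obtain ⟨gs, hgs, hnot⟩ := hex
  obtain ⟨g, hg, hlim⟩ := mem_closure_iff_seq_limit.mp (hd gs)
  choose c n hcn using hg
  have hcl : IsClosed ((Submodule.span ℂ {f} : Submodule ℂ (Lp ℂ p mI)) : Set (Lp ℂ p mI)) :=
    Submodule.closed_of_finiteDimensional _
  have hev : ∀ᶠ k in atTop, n k ≠ 0 := by
    have h1 : ∀ᶠ k in atTop, g k ∈ ((Submodule.span ℂ {f} : Submodule ℂ (Lp ℂ p mI)) :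
        Set (Lp ℂ p mI))ᶜ := hlim.eventually (hcl.isOpen_compl.mem_nhds hnot)
    filter_upwards [h1] with k hk hn
    apply hk
    rw [hcn k, hn, pow_zero]
    exact Submodule.smul_mem _ _ (Submodule.mem_span_singleton_self f)
  have h := zero_of_lim hlim hgs (fun _ => {x | φ x = 0}) (m := mI {x | φ x = 0})
    (by
      filter_upwards [hev] with k hk
      obtain ⟨j, hj⟩ := Nat.exists_eq_succ_of_ne_zero hk
      filter_upwards [weight_zero_ae hT f j, Lp.coeFn_smul (c k) ((T ^ (j + 1)) f)] with x h1 h2 h3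
      rw [hcn k, hj, h2, Pi.smul_apply, h1 h3, smul_zero])
    (fun k => le_rfl)
  rw [ae_iff]
  simpa using h

/-- No weighted translation is supercyclic. -/
theorem not_supercyclic (hT : IsWT φ α T) (f : Lp ℂ p mI) :
    ¬ Dense {g : Lp ℂ p mI | ∃ (c : ℂ) (n : ℕ), g = c • (T ^ n) f} := by
  intro hd
  have hf0 := f_ne_zero hT hd
  have hφ0 := phi_ne_zero hT hd
  refine core2 α (fun x => Real.log ‖φ x‖) (fun x => Real.log ‖f x‖) ?_
  rintro w hw ⟨C, hC⟩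
  exact approx hT hφ0 hf0 hd hw hC (by norm_num) (by simp)

end Pool.Agent.X143.WT
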