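import Pool.Agent.X143.WT.Core

/-!
# Weighted translations: the rotations of `[0,1]`
-/

namespace Pool.Agent.X143.WT

open MeasureTheory Function Set
open scoped ENNReal

/-- Lebesgue measure on `[0,1]` -/
noncomputable def mI : Measure ℝ := volume.restrict (Icc (0 : ℝ) 1)

/-- the translation modulo 1 -/
noncomputable def rot (α : ℝ) : ℝ → ℝ := fun x => Int.fract (x + α)

instance : IsProbabilityMeasure mI := ⟨by simp [mI]⟩

lemma mI_eq_Ioc : mI = volume.restrict (Ioc (0 : ℝ) 1) := by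
  unfold mI; exact (Measure.restrict_congr_set Ioc_ae_eq_Icc).symm

lemma mI_ae_Ioo : ∀ᵐ x ∂mI, x ∈ Ioo (0 : ℝ) 1 := by
  have : mI = volume.restrict (Ioo (0 : ℝ) 1) := by
    unfold mI; exact (Measure.restrict_congr_set Ioo_ae_eq_Icc).symm
  rw [this]
  exact ae_restrict_mem measurableSet_Ioo

/-- the section of the quotient map -/
noncomputable def sec (x : UnitAddCircle) : ℝ := (AddCircle.equivIco 1 0 x : ℝ)

lemma sec_measurable : Measurable sec :=
  measurable_subtype_coe.comp (AddCircle.measurableEquivIco 1 0).measurable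

lemma sec_coe (x : ℝ) : sec (x : UnitAddCircle) = Int.fract x := by
  unfold sec
  rw [AddCircle.coe_equivIco_mk_apply]
  simp

lemma mk_mp : MeasurePreserving (fun x : ℝ => (x : UnitAddCircle)) mI volume := by
  rw [mI_eq_Ioc]
  have := UnitAddCircle.measurePreserving_mk 0
  simpa using this

lemma sec_mp : MeasurePreserving sec volume mI := by
  refine ⟨sec_measurable, ?_⟩
  rw [← mk_mp.map_eq, Measure.map_map sec_measurable mk_mp.measurable]
  have : (sec ∘ fun x : ℝ => (x : UnitAddCircle)) =ᵐ[mI] id := by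
    filter_upwards [mI_ae_Ioo] with x hx
    simp only [comp_apply, sec_coe, id]
    exact Int.fract_eq_self.mpr ⟨hx.1.le, hx.2⟩
  rw [Measure.map_congr this, Measure.map_id]

lemma rot_mp (α : ℝ) : MeasurePreserving (rot α) mI mI := by
  have h := sec_mp.comp ((measurePreserving_add_right (volume : Measure UnitAddCircle)
    (α : UnitAddCircle)).comp mk_mp)
  have e : rot α = sec ∘ ((fun x : UnitAddCircle => x + (α : UnitAddCircle)) ∘
      fun x : ℝ => (x : UnitAddCircle)) := by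
    funext x
    simp only [rot, comp_apply]
    rw [← AddCircle.coe_add, sec_coe]
  rw [e]
  exact h

lemma rot_iter (α : ℝ) (n : ℕ) (x : ℝ) (hx : x ∈ Ico (0 : ℝ) 1) :
    (rot α)^[n] x = Int.fract (x + n * α) := by
  induction n with
  | zero => simp [Int.fract_eq_self.mpr hx]
  | succ n ih =>
    rw [iterate_succ_apply', ih, rot]
    rw [Int.fract_eq_fract]
    refine ⟨-⌊x + n * α⌋, ?_⟩
    push_cast
    unfold Int.fract
    ring

lemma birk_mul {X : Type*} (R : X → X) (h : X → ℝ) (n k : ℕ) (x : X) (hx : R^[n] x = x) :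
    birkhoffSum R h (n * k) x = k * birkhoffSum R h n x := by
  induction k with
  | zero => simp
  | succ k ih =>
    have hk : R^[n * k] x = x := by
      rw [iterate_mul]
      exact iterate_fixed hx k
    rw [Nat.mul_succ, birkhoffSum_add, ih, hk]
    push_cast; ring

lemma Cl.mono' {X : Type*} [MeasurableSpace X] {μ : Measure X} {δ δ' : ℝ} {ε ε' : ℝ≥0∞}
    {a b : X → ℝ} (h : Cl μ δ ε a b) (hδ : δ ≤ δ') (hε : ε ≤ ε') : Cl μ δ' ε' a b := by
  unfold Cl at *
  refine le_trans (measure_mono ?_) (h.trans hε)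
  intro x hx
  simp only [mem_ofPred_eq] at *
  linarith

lemma exists_good {B : Set ℝ} (hB : mI B ≤ 1 / 8) {a b : ℝ} (ha : 0 ≤ a) (hab : a + 1 / 4 ≤ b)
    (hb : b ≤ 1) : ∃ x, x ∈ Ioo a b ∧ x ∉ B := by
  by_contra hcon
  push Not at hcon
  have h1 : mI (Ioo a b) ≤ mI B := measure_mono hcon
  have h2 : mI (Ioo a b) = ENNReal.ofReal (b - a) := by
    unfold mI
    rw [Measure.restrict_apply measurableSet_Ioo, inter_eq_left.mpr, Real.volume_Ioo]
    intro x hx
    exact ⟨ha.trans hx.1.le, hx.2.le.trans hb⟩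
  have h3 : ENNReal.ofReal (1 / 4) ≤ ENNReal.ofReal (1 / 8) := by
    calc ENNReal.ofReal (1 / 4) ≤ ENNReal.ofReal (b - a) := ENNReal.ofReal_le_ofReal (by linarith)
      _ ≤ 1 / 8 := by rw [← h2]; exact h1.trans hB
      _ = ENNReal.ofReal (1 / 8) := by
          rw [ENNReal.ofReal_div_of_pos (by norm_num)]; simp
  rw [ENNReal.ofReal_le_ofReal_iff (by norm_num)] at h3
  norm_num at h3

/-- the orbit of no function under the affine isometry is dense modulo constants -/
theorem core2 (α : ℝ) (h F : ℝ → ℝ)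
    (H : ∀ w : ℝ → ℝ, Measurable w → (∃ C, ∀ x, |w x| ≤ C) →
      ∃ (n : ℕ) (c : ℝ), Cl mI (1 / 8) (1 / 32) ((af (rot α) h)^[n] F)
        (fun x => F x + (w x + c))) : False := by
  have hbd : ∀ x : ℝ, 0 ≤ Int.fract x ∧ Int.fract x ≤ 1 := fun x =>
    ⟨Int.fract_nonneg x, (Int.fract_lt_one x).le⟩
  -- integrality of the times
  have hint : ∀ (u : ℝ → ℝ), Measurable u → (∀ x, 0 ≤ u x) → (∀ x, u x ≤ 1) →
      (∀ x y, u x = u y → Int.fract x = Int.fract y) → ∀ (n : ℕ) (c : ℝ),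
      Cl mI (1 / 8) (1 / 32) ((af (rot α) h)^[n] F) (fun x => F x + (u x + c)) →
      ∀ x ∈ Ico (0 : ℝ) 1, (rot α)^[n] x = x := by
    intro u hum hu0 hu1 huinj n c hn x hx
    have hk := core1 (rot_mp α) h F u hu0 hu1 (n := n) (c := c) (ε := 1 / 32)
      (hn.mono' (by norm_num) le_rfl) (by
        intro k
        obtain ⟨m, c', hm⟩ := H (fun x => k * u x) (measurable_const.mul hum)
          ⟨k, fun x => by
            rw [abs_mul, abs_of_nonneg (Nat.cast_nonneg k), abs_of_nonneg (hu0 x)]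
            have := hu1 x
            have hk0 : (0 : ℝ) ≤ k := Nat.cast_nonneg k
            nlinarith⟩
        exact ⟨m, c', hm.mono' (by norm_num) le_rfl⟩)
    have hk' : mI {x | u ((rot α)^[n] x) ≠ u x} ≤ 1 / 8 := by
      refine hk.trans (le_of_eq ?_)
      rw [← mul_div_assoc, mul_one, ENNReal.div_eq_div_iff] <;> norm_num
    obtain ⟨y, hy, hyB⟩ := exists_good hk' (le_refl (0 : ℝ)) (b := 1) (by norm_num) le_rfl
    simp only [mem_ofPred_eq, not_not] at hyB
    have h1 := huinj _ _ hyB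
    rw [rot_iter α n y ⟨hy.1.le, hy.2⟩, Int.fract_fract, Int.fract_eq_fract] at h1
    obtain ⟨z, hz⟩ := h1
    rw [rot_iter α n x hx]
    have hz' : (n : ℝ) * α = z := by linarith
    rw [hz', Int.fract_add_intCast]
    exact Int.fract_eq_self.mpr hx
  obtain ⟨n, c, hn⟩ := H (fun x => Int.fract x) measurable_fract
    ⟨1, fun x => by rw [abs_of_nonneg (hbd x).1]; exact (hbd x).2⟩
  obtain ⟨m, d, hm⟩ := H (fun x => 1 - Int.fract x) (measurable_const.sub measurable_fract)
    ⟨1, fun x => by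
      rw [abs_of_nonneg (by linarith [(hbd x).2])]; linarith [(hbd x).1]⟩
  have hn1 := hint _ measurable_fract (fun x => (hbd x).1) (fun x => (hbd x).2)
    (fun x y hxy => hxy) n c hn
  have hm1 := hint (fun x => 1 - Int.fract x) (measurable_const.sub measurable_fract)
    (fun x => by linarith [(hbd x).2]) (fun x => by linarith [(hbd x).1])
    (fun x y hxy => by linarith) m d hm
  have hS : ∀ x ∈ Ico (0 : ℝ) 1, (m : ℝ) * birkhoffSum (rot α) h n x =
      n * birkhoffSum (rot α) h m x := by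
    intro x hx
    rw [← birk_mul _ _ n m x (hn1 x hx), ← birk_mul _ _ m n x (hm1 x hx), mul_comm]
  have hB : mI ({x | (1 / 8 : ℝ) ≤ |(af (rot α) h)^[n] F x - (F x + (Int.fract x + c))|} ∪
      {x | (1 / 8 : ℝ) ≤ |(af (rot α) h)^[m] F x - (F x + ((1 - Int.fract x) + d))|}) ≤ 1 / 8 := by
    refine (measure_union_le _ _).trans ?_
    unfold Cl at hn hm
    refine (add_le_add hn hm).trans ?_
    rw [← two_mul, ← mul_div_assoc, mul_one]
    rw [ENNReal.div_le_iff (by norm_num) (by norm_num), ← ENNReal.mul_div_right_comm,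
      ENNReal.le_div_iff_mul_le (by norm_num) (by norm_num)]
    norm_num
  obtain ⟨x, hx, hxB⟩ := exists_good hB (a := 0) (b := 1 / 4) le_rfl (by norm_num) (by norm_num)
  obtain ⟨y, hy, hyB⟩ := exists_good hB (a := 3 / 4) (b := 1) (by norm_num) (by norm_num) le_rfl
  simp only [mem_union, mem_ofPred_eq, not_or, not_le] at hxB hyB
  have hxI : x ∈ Ico (0 : ℝ) 1 := ⟨hx.1.le, by linarith [hx.2]⟩
  have hyI : y ∈ Ico (0 : ℝ) 1 := ⟨by linarith [hy.1], hy.2⟩
  rw [af_iter_eq, af_iter_eq, hn1 x hxI, hm1 x hxI, Int.fract_eq_self.mpr hxI] at hxB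
  rw [af_iter_eq, af_iter_eq, hn1 y hyI, hm1 y hyI, Int.fract_eq_self.mpr hyI] at hyB
  have hSx := hS x hxI
  have hSy := hS y hyI
  obtain ⟨a1, ha1⟩ : ∃ a, a = birkhoffSum (rot α) h n x := ⟨_, rfl⟩
  obtain ⟨a2, ha2⟩ : ∃ a, a = birkhoffSum (rot α) h m x := ⟨_, rfl⟩
  obtain ⟨b1, hb1⟩ : ∃ a, a = birkhoffSum (rot α) h n y := ⟨_, rfl⟩
  obtain ⟨b2, hb2⟩ : ∃ a, a = birkhoffSum (rot α) h m y := ⟨_, rfl⟩
  rw [← ha1, ← ha2] at hSx hxB
  rw [← hb1, ← hb2] at hSy hyB
  obtain ⟨p1, p2⟩ := hxB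
  obtain ⟨q1, q2⟩ := hyB
  rw [abs_lt] at p1 p2 q1 q2
  have hx2 := hx.2
  have hy1 := hy.1
  have e1 : 0 < b1 - a1 := by linarith [p1.1, p1.2, q1.1, q1.2]
  have e2 : b2 - a2 < 0 := by linarith [p2.1, p2.2, q2.1, q2.2]
  have e3 : (m : ℝ) * (b1 - a1) = n * (b2 - a2) := by linarith
  have hm0 : (0 : ℝ) ≤ m := Nat.cast_nonneg m
  have hn0 : (0 : ℝ) ≤ n := Nat.cast_nonneg n
  have e4 : 0 ≤ (m : ℝ) * (b1 - a1) := mul_nonneg hm0 e1.le
  have e5 : (n : ℝ) * (b2 - a2) ≤ 0 := mul_nonpos_of_nonneg_of_nonpos hn0 e2.le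
  have e6 : (m : ℝ) * (b1 - a1) = 0 := by linarith
  have hm2 : (m : ℝ) = 0 := by
    rcases mul_eq_zero.mp e6 with h1 | h1
    · exact h1
    · exact absurd h1 e1.ne'
  have hm3 : m = 0 := by exact_mod_cast hm2
  subst hm3
  simp only [birkhoffSum_zero] at ha2 hb2
  rw [ha2, hb2] at e2
  simp at e2

end Pool.Agent.X143.WT
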